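import Pool.Agent.W2helper22.CU.Stmts3

/-!
# Circuits with few NOT gates on every host: the bound for one good block
-/

set_option autoImplicit false

namespace Pool.Agent.W2helper46.CU

open Finset Pool.Agent.H540R2 Pool.Agent.W2helper86.KQ Pool.Agent.H520R2 Pool.Agent.H520R2.NM
open Pool.Agent.W2helper22.CU

/-- the part of the host in block `j` -/
def hj {n P : ℕ} (H : SimpleGraph (Fin n)) (π : Fin n → Fin P) (j : Fin P) :
    SimpleGraph (Fin n) where
  Adj u v := H.Adj u v ∧ π u = j ∧ π v = j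
  symm := ⟨fun _ _ h => ⟨h.1.symm, h.2.2, h.2.1⟩⟩
  loopless := ⟨fun _ h => H.loopless.irrefl _ h.1⟩

lemma hj_clique {n P k : ℕ} (H : SimpleGraph (Fin n)) (π : Fin n → Fin P) (j : Fin P)
    (hk : 2 ≤ k) (s : Finset (Fin n)) :
    (hj H π j).IsNClique k s ↔ H.IsNClique k s ∧ ∀ v ∈ s, π v = j := by
  rw [SimpleGraph.isNClique_iff, SimpleGraph.isNClique_iff, SimpleGraph.isClique_iff,
    SimpleGraph.isClique_iff]
  constructor
  · rintro ⟨h1, h2⟩
    refine ⟨⟨fun a ha b hb hab => (h1 ha hb hab).1, h2⟩, fun v hv => ?_⟩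
    obtain ⟨w, hw, hwv⟩ := Finset.exists_mem_ne (by omega : 1 < s.card) v
    exact (h1 hv hw hwv.symm).2.1
  · rintro ⟨⟨h1, h2⟩, h3⟩
    exact ⟨fun a ha b hb hab => ⟨h1 ha hb hab, h3 a ha, h3 b hb⟩, h2⟩

lemma hj_cliques {n P k : ℕ} (H : SimpleGraph (Fin n)) (π : Fin n → Fin P) (j : Fin P)
    (hk : 2 ≤ k) :
    cliques (hj H π j) k = ((cl H k).filter (fun s => ∀ v ∈ s, π v = j)).card := by
  rw [← card_cl]
  congr 1
  ext s
  rw [Finset.mem_filter, mem_cl, mem_cl, hj_clique H π j hk]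

open Classical in
/-- the substitution: block `j` is read from `z`, the rest is fixed -/
noncomputable def sub {n P : ℕ} (π : Fin n → Fin P) (j : Fin P)
    (x0 : Fin (n.choose 2) → Bool) (z : Fin (n.choose 2) → Bool) : Fin (n.choose 2) → Bool :=
  fun i => if π ((pairNo n).symm i).1.1 = j ∧ π ((pairNo n).symm i).1.2 = j then z i else x0 i

lemma sub_base {n P : ℕ} (π : Fin n → Fin P) (j : Fin P) (x0 : Fin (n.choose 2) → Bool) :
    ∀ b ∈ VB (Fin (n.choose 2)), b ∘ sub π j x0 ∈ VB (Fin (n.choose 2)) := by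
  rintro b (⟨c, rfl⟩ | ⟨i, rfl⟩)
  · exact Or.inl ⟨c, rfl⟩
  · by_cases h : π ((pairNo n).symm i).1.1 = j ∧ π ((pairNo n).symm i).1.2 = j
    · refine Or.inr ⟨i, ?_⟩
      funext z
      simp only [Function.comp_apply, sub, if_pos h]
    · refine Or.inl ⟨x0 i, ?_⟩
      funext z
      simp only [Function.comp_apply, sub, if_neg h]

lemma bits_eq {n : ℕ} (R : Fin n → Fin n → Prop) (i : Fin (n.choose 2)) :
    bits R i = true ↔ R ((pairNo n).symm i).1.1 ((pairNo n).symm i).1.2 := by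
  classical
  unfold bits
  constructor
  · exact fun h => of_decide_eq_true h
  · exact fun h => decide_eq_true h

/-- the union of the base graph and a clique in block `j` -/
def posR {n P κ : ℕ} (H : SimpleGraph (Fin n)) (π : Fin n → Fin P) (j : Fin P)
    (χ₀ : Fin n → Fin κ) (S : Finset (Fin n)) (u v : Fin n) : Prop :=
  (u ∈ S ∧ v ∈ S) ∨ baseR H π j χ₀ u v

lemma sub_pos {n P κ : ℕ} (H : SimpleGraph (Fin n)) (π : Fin n → Fin P) (j : Fin P)
    (χ₀ : Fin n → Fin κ) (S : Finset (Fin n)) (hS : ∀ v ∈ S, π v = j) :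
    sub π j (bits (baseR H π j χ₀)) (bits (fun u v => u ∈ S ∧ v ∈ S)) =
      bits (posR H π j χ₀ S) := by
  funext i
  rw [Bool.eq_iff_iff, bits_eq]
  unfold sub posR
  split_ifs with h
  · rw [bits_eq]
    constructor
    · exact fun h1 => Or.inl h1
    · rintro (h1 | h1)
      · exact h1
      · exact absurd h.1 (ne_of_lt h1.2.2.1)
  · rw [bits_eq]
    constructor
    · exact fun h1 => Or.inr h1
    · rintro (h1 | h1)
      · exact absurd ⟨hS _ h1.1, hS _ h1.2⟩ h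
      · exact h1

lemma sub_neg {n P κ : ℕ} (H : SimpleGraph (Fin n)) (π : Fin n → Fin P) (j : Fin P)
    (χ₀ χ : Fin n → Fin κ) :
    sub π j (bits (baseR H π j χ₀)) (bits (fun u v => (hj H π j).Adj u v ∧ χ u ≠ χ v)) =
      bits (mixR H π j χ₀ χ) := by
  funext i
  rw [Bool.eq_iff_iff, bits_eq]
  unfold sub mixR
  split_ifs with h
  · rw [bits_eq]
    constructor
    · rintro ⟨h1, h2⟩
      exact ⟨h1.1, h.1.trans h.2.symm, Or.inr ⟨h.1, h2⟩⟩
    · rintro ⟨h1, h2, h3 | h3⟩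
      · exact absurd h.1 (ne_of_lt h3.1)
      · exact ⟨⟨h1, h.1, h.2⟩, h3.2⟩
  · rw [bits_eq]
    constructor
    · rintro ⟨h1, h2, h3, h4⟩
      exact ⟨h1, h2, Or.inl ⟨h3, h4⟩⟩
    · rintro ⟨h1, h2, h3 | h3⟩
      · exact ⟨h1, h2, h3.1, h3.2⟩
      · exact absurd ⟨h3.1, h2 ▸ h3.1⟩ h

lemma baseR_symm {n P κ : ℕ} {H : SimpleGraph (Fin n)} {π : Fin n → Fin P} {j : Fin P}
    {χ₀ : Fin n → Fin κ} {u v : Fin n} (h : baseR H π j χ₀ u v) : baseR H π j χ₀ v u :=
  ⟨h.1.symm, h.2.1.symm, h.2.1 ▸ h.2.2.1, h.2.2.2.symm⟩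

lemma mixR_symm {n P κ : ℕ} {H : SimpleGraph (Fin n)} {π : Fin n → Fin P} {j : Fin P}
    {χ₀ χ : Fin n → Fin κ} {u v : Fin n} (h : mixR H π j χ₀ χ u v) : mixR H π j χ₀ χ v u := by
  obtain ⟨h1, h2, h3 | h3⟩ := h
  · exact ⟨h1.symm, h2.symm, Or.inl ⟨h2 ▸ h3.1, h3.2.symm⟩⟩
  · exact ⟨h1.symm, h2.symm, Or.inr ⟨h2 ▸ h3.1, h3.2.symm⟩⟩

lemma base_le_of {n : ℕ} {R R' : Fin n → Fin n → Prop} (h : ∀ u v, R u v → R' u v) :
    bits R ≤ bits R' := by
  intro i
  by_cases h1 : bits R i = true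
  · rw [h1, (bits_eq R' i).2 (h _ _ ((bits_eq R i).1 h1))]
  · rw [Bool.not_eq_true] at h1
    rw [h1]
    exact Bool.false_le _

/-- a positive test contains the clique -/
lemma eval_pos {n k P : ℕ} {H : SimpleGraph (Fin n)} {C : H540R2.Circuit (n.choose 2)}
    (hC : Separates H k C) (π : Fin n → Fin P) (j : Fin P) (χ₀ : Fin n → Fin (k - 1))
    (S : Finset (Fin n)) (hS : H.IsNClique k S) :
    C.eval (bits (posR H π j χ₀ S)) = true := by
  have hsymm : ∀ u v, posR H π j χ₀ S u v → posR H π j χ₀ S v u := by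
    rintro u v (h | h)
    · exact Or.inl ⟨h.2, h.1⟩
    · exact Or.inr (baseR_symm h)
  refine (hC _ ?_).1 ?_
  · intro u v huv
    rw [graph_bits _ hsymm] at huv
    obtain ⟨h1, h2 | h2⟩ := huv
    · exact hS.isClique (Finset.mem_coe.2 h2.1) (Finset.mem_coe.2 h2.2) h1
    · exact h2.1
  · intro hfree
    refine hfree S ⟨?_, hS.card_eq⟩
    rw [SimpleGraph.isClique_iff]
    intro a ha b hb hab
    rw [graph_bits _ hsymm]
    exact ⟨hab, Or.inl ⟨Finset.mem_coe.1 ha, Finset.mem_coe.1 hb⟩⟩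

/-- a negative test is coloured -/
lemma eval_neg {n k P : ℕ} {H : SimpleGraph (Fin n)} {C : H540R2.Circuit (n.choose 2)}
    (hC : Separates H k C) (π : Fin n → Fin P) (j : Fin P) (χ₀ χ : Fin n → Fin (k - 1)) :
    C.eval (bits (mixR H π j χ₀ χ)) = false := by
  have hsymm : ∀ u v, mixR H π j χ₀ χ u v → mixR H π j χ₀ χ v u := fun u v h => mixR_symm h
  refine (hC _ ?_).2 ?_
  · intro u v huv
    rw [graph_bits _ hsymm] at huv
    exact huv.2.1
  · classical
    refine ⟨SimpleGraph.Coloring.mk (fun u => if π u < j then χ₀ u else χ u) ?_⟩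
    intro u v huv
    rw [graph_bits _ hsymm] at huv
    obtain ⟨-, h1, h2, h3 | h3⟩ := huv
    · have : π v < j := h2 ▸ h3.1
      rw [if_pos h3.1, if_pos this]
      exact h3.2
    · have e1 : ¬ π u < j := by rw [h3.1]; exact lt_irrefl _
      have e2 : ¬ π v < j := by rw [← h2]; exact e1
      rw [if_neg e1, if_neg e2]
      exact h3.2

theorem p_BLOCK (hM : P_MAINR) : P_BLOCK := by
  intro n k p P H C π j χ₀ hk hp hC hbad W hW hW2 hnum
  set ν : Fin (n.choose 2) → Fin (n.choose 2) ⊕ Bool := fun i => Sum.inl i with hν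
  set B := W953.KC.build ν C C.size with hB
  have hsx : ∀ z : Fin (n.choose 2) → Bool, W953.KC.sx ν z = z := fun z => rfl
  have hout : ∀ z, (W953.KC.outOf ν C).eval z (B.vals z) = C.eval z := by
    intro z
    rw [hB, W953.KC.outOf_eval, hsx]
  set x0 := bits (baseR H π j χ₀) with hx0
  obtain ⟨g, hg, hgD⟩ := B.flip (W953.KC.outOf ν C) x0
    {x | x0 ≤ x ∧ (C.eval x = false → B.probes x = B.probes x0)} (fun x hx => hx.1)
    (fun x hx h => hx.2 (by rw [← hout]; exact h))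
  rw [hB, W953.KC.build_size] at hg
  have hg' := hg.comp (sub π j x0) (sub_base π j x0)
  have hcl := hj_cliques H π j hk
  rw [← hW] at hcl
  have := hM n k p C.size (hj H π j) (g ∘ sub π j x0) hk hp (by rw [hcl]; exact hW2) hg' ?_ ?_
    (by rw [hcl]; exact hnum)
  · rw [hcl] at this
    exact this
  · intro S hS
    rw [hj_clique H π j hk] at hS
    rw [Function.comp_apply, hx0, sub_pos H π j χ₀ S hS.2]
    have h1 := eval_pos hC π j χ₀ S hS.1
    have h2 := hgD (bits (posR H π j χ₀ S))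
      ⟨base_le_of (fun u v h => Or.inr h), fun h => absurd (h1.symm.trans h) (by simp)⟩
    rw [h2, hout]
    exact h1
  · refine le_trans ?_ hbad
    norm_cast
    refine Set.ncard_le_ncard ?_ (Set.toFinite _)
    intro χ hχ
    change g (sub π j x0 (bits (fun u v => (hj H π j).Adj u v ∧ χ u ≠ χ v))) = true at hχ
    rw [hx0, sub_neg H π j χ₀ χ] at hχ
    change B.probes (bits (mixR H π j χ₀ χ)) ≠ B.probes x0
    intro hpr
    have h1 := eval_neg hC π j χ₀ χ
    have h2 := hgD (bits (mixR H π j χ₀ χ))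
      ⟨base_le_of (fun u v h => ⟨h.1, h.2.1, Or.inl ⟨h.2.2.1, h.2.2.2⟩⟩), fun _ => hpr⟩
    rw [h2, hout, h1] at hχ
    exact Bool.false_ne_true hχ

end Pool.Agent.W2helper46.CU
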