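import Pool.Agent.W2helper22.CU.Stmts3

/-!
# Circuits with few NOT gates on every host: the bound for a spread host
-/

set_option autoImplicit false

namespace Pool.Agent.W2helper46.CU

open Finset Pool.Agent.H540R2 Pool.Agent.W2helper86.KQ Pool.Agent.H520R2 Pool.Agent.H520R2.NM
open Pool.Agent.W2helper22.CU

lemma qq_pos' {κ : ℕ} (h : 1 ≤ κ) : 0 < qq κ := by
  unfold qq
  have : (0 : ℝ) < κ := by exact_mod_cast h
  positivity

lemma qq_le_one' (κ : ℕ) (h : 1 ≤ κ) : qq κ ≤ 1 := by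
  unfold qq
  have : (0 : ℝ) < (κ : ℝ) ^ κ := by
    have : (0 : ℝ) < κ := by exact_mod_cast h
    positivity
  rw [div_le_one this]
  exact_mod_cast Nat.factorial_le_pow κ

theorem p_SPREADN (hP : P_PART) (hCh : P_CHAIN) (hB : P_BLOCK) : P_SPREADN := by
  classical
  intro n k p P R H C hk hp hP1 hR1 hC hcl hsp h16 hnots hnum
  have hκ : 1 ≤ k - 1 := by omega
  have hq := qq_pos' hκ
  have hq1 := qq_le_one' (k - 1) hκ
  have hne : (cl H k).Nonempty := by
    rw [← Finset.card_pos, card_cl]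
    omega
  obtain ⟨π, hπ⟩ := hP n k P R (cl H k) hP1 hR1 (fun s hs => (mem_cl.1 hs).card_eq) hne
    (fun Y => by
      have := hsp Y
      rw [← card_cl] at this
      exact this)
  set B := W953.KC.build (fun i => (Sum.inl i : Fin (n.choose 2) ⊕ Bool)) C C.size with hBdef
  have hch := hCh n (k - 1) P C.size H B π (qq (k - 1) / 2) hκ (by positivity)
  rw [hBdef, W953.KC.build_prod, ← hBdef] at hch
  -- few bad blocks
  have hPpos : (0 : ℝ) < P := by exact_mod_cast hP1
  set S1 : Finset (Fin P) := univ.filter (fun j : Fin P =>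
    2 * P ^ k * ((cl H k).filter (fun s => ∀ v ∈ s, π v = j)).card < (cl H k).card) with hS1
  set S2 : Set (Fin P) := {j : Fin P | ∀ χ₀ : Fin n → Fin (k - 1),
    qq (k - 1) / 2 * ((k - 1 : ℕ) : ℝ) ^ n < ({χ : Fin n → Fin (k - 1) |
      B.probes (bits (mixR H π j χ₀ χ)) ≠ B.probes (bits (baseR H π j χ₀))}.ncard : ℝ)} with hS2
  have h1 : (S1.card : ℝ) ≤ P / 4 := by
    refine hπ.trans ?_
    nlinarith
  have h2 : (S2.ncard : ℝ) ≤ P / 2 := by
    have : (S2.ncard : ℝ) * (qq (k - 1) / 2) ≤ 2 ^ C.nots := by exact_mod_cast hch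
    nlinarith
  have hex : ∃ j : Fin P, j ∉ S1 ∧ j ∉ S2 := by
    by_contra hcon
    push Not at hcon
    have h3 : (Set.univ : Set (Fin P)) ⊆ (S1 : Set (Fin P)) ∪ S2 := by
      intro j _
      by_cases h : j ∈ S1
      · exact Or.inl (Finset.mem_coe.2 h)
      · exact Or.inr (hcon j h)
    have h4 := (Set.ncard_le_ncard h3 (Set.toFinite _)).trans (Set.ncard_union_le _ _)
    rw [Set.ncard_univ, Nat.card_eq_fintype_card, Fintype.card_fin, Set.ncard_coe_finset] at h4
    have h5 : (P : ℝ) ≤ S1.card + S2.ncard := by exact_mod_cast h4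
    linarith
  obtain ⟨j, hj1, hj2⟩ := hex
  set W := ((cl H k).filter (fun s => ∀ v ∈ s, π v = j)).card with hW
  have hj3 : (cl H k).card ≤ 2 * P ^ k * W := by
    rw [hS1, Finset.mem_filter] at hj1
    push Not at hj1
    exact hj1 (Finset.mem_univ _)
  rw [card_cl] at hj3
  have hj4 : ∃ χ₀ : Fin n → Fin (k - 1), ({χ : Fin n → Fin (k - 1) |
      B.probes (bits (mixR H π j χ₀ χ)) ≠ B.probes (bits (baseR H π j χ₀))}.ncard : ℝ) ≤
      qq (k - 1) / 2 * ((k - 1 : ℕ) : ℝ) ^ n := by
    by_contra hcon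
    push Not at hcon
    exact hj2 hcon
  obtain ⟨χ₀, hχ₀⟩ := hj4
  have hWle : W ≤ cliques H k := by
    rw [← card_cl]
    exact Finset.card_filter_le _ _
  have hW1 : 1 ≤ W := by
    by_contra hcon
    have : W = 0 := by omega
    rw [this] at hj3
    omega
  have hgoal : W ≤ (3 * C.size + 1) * (p ^ (k - 1) * (k - 1).factorial) ^ 2 := by
    rcases Nat.lt_or_ge W 2 with hW2 | hW2
    · have h3 : 0 < (3 * C.size + 1) * (p ^ (k - 1) * (k - 1).factorial) ^ 2 := by
        have : 0 < p := by omega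
        positivity
      omega
    · refine hB n k p P H C π j χ₀ hk hp hC hχ₀ W rfl hW2 (lt_of_le_of_lt ?_ hnum)
      have h3 : (W : ℝ) ≤ cliques H k := by exact_mod_cast hWle
      have h4 : (0 : ℝ) ≤ W := Nat.cast_nonneg _
      have h5 : 0 ≤ (1 - qq (k - 1)) ^ p := pow_nonneg (by linarith) _
      apply mul_le_mul_of_nonneg_left _ h5
      have h6 : (0 : ℝ) ≤ 2 ^ k := by positivity
      apply mul_le_mul
      · exact mul_le_mul_of_nonneg_left h3 h6
      · linarith
      · linarith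
      · positivity
  exact hj3.trans (Nat.mul_le_mul_left _ hgoal)

end Pool.Agent.W2helper46.CU
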